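import Pool.Agent.V5helper42.MF.Model

set_option autoImplicit false

/-!
# Cramér's random model: almost surely the irregular intervals of length `(log n) ^ B` are rare
(helper42)
-/

namespace Pool.Agent.V5helper42.MF

open MeasureTheory ProbabilityTheory Finset Filter

/-- the integers of the interval `(n, n + (log n) ^ B]` -/
noncomputable def win (B : ℝ) (n : ℕ) : Finset ℕ := Ioc n (n + ⌊Real.log n ^ B⌋₊)

/-- for large `n` the expected number is close to `(log n) ^ (B - 1)` -/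
lemma mean_close (B ε : ℝ) (hB : 1 < B) (hε : 0 < ε) : ∀ᶠ n : ℕ in atTop,
    |∑ m ∈ win B n, 1 / Real.log m - Real.log n ^ (B - 1)| ≤ ε * Real.log n ^ (B - 1) := by
  have hlogn : Tendsto (fun n : ℕ => Real.log (n : ℝ)) atTop atTop :=
    Real.tendsto_log_atTop.comp tendsto_natCast_atTop_atTop
  have h1 : ∀ᶠ n : ℕ in atTop, Real.log n ^ B ≤ n := by
    have := (isLittleO_log_rpow_rpow_atTop B (show (0 : ℝ) < 1 by norm_num)).bound
      (show (0 : ℝ) < 1 by norm_num)
    have h2 := tendsto_natCast_atTop_atTop (R := ℝ) |>.eventually this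
    filter_upwards [h2, eventually_ge_atTop 1] with n hn hn1
    have hl : 0 ≤ Real.log n := Real.log_nonneg (by exact_mod_cast hn1)
    rw [one_mul, Real.rpow_one, Real.norm_of_nonneg (Real.rpow_nonneg hl _),
      Real.norm_of_nonneg (Nat.cast_nonneg n)] at hn
    exact hn
  filter_upwards [h1, hlogn.eventually_ge_atTop (max 1 (2 / ε)), eventually_ge_atTop 3] with
    n hn hl hn3
  set l := Real.log (n : ℝ) with hldef
  have hl1 : 1 ≤ l := (le_max_left _ _).trans hl
  have hl2 : 2 / ε ≤ l := (le_max_right _ _).trans hl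
  have hl0 : 0 < l := by linarith
  have hn0 : (0 : ℝ) < n := by
    have : (3 : ℝ) ≤ n := by exact_mod_cast hn3
    linarith
  set y := l ^ B with hy
  have hy1 : 1 ≤ y := Real.one_le_rpow hl1 (by linarith)
  set z := l ^ (B - 1) with hz
  have hz1 : 1 ≤ z := Real.one_le_rpow hl1 (by linarith)
  have hyz : y = l * z := by
    rw [hy, hz]
    nth_rw 2 [← Real.rpow_one l]
    rw [← Real.rpow_add hl0]
    congr 1
    ring
  set h := ⌊y⌋₊ with hh
  have hhy : (h : ℝ) ≤ y := Nat.floor_le (by linarith)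
  have hhy' : y - 1 < h := by
    have := Nat.lt_floor_add_one y
    linarith
  have hcard : ((win B n).card : ℝ) = h := by
    have h1 : (win B n).card = h := by
      unfold win
      rw [Nat.card_Ioc, ← hldef, ← hy, ← hh]
      omega
    rw [h1]
  have hup : ∑ m ∈ win B n, 1 / Real.log m ≤ z := by
    have : ∀ m ∈ win B n, 1 / Real.log m ≤ 1 / l := by
      intro m hm
      unfold win at hm
      rw [mem_Ioc] at hm
      apply one_div_le_one_div_of_le hl0
      exact Real.log_le_log hn0 (by exact_mod_cast hm.1.le)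
    refine (sum_le_sum this).trans ?_
    rw [sum_const, nsmul_eq_mul, hcard, mul_one_div, div_le_iff₀ hl0]
    linarith
  have hlo : (1 - ε) * z ≤ ∑ m ∈ win B n, 1 / Real.log m := by
    rcases le_or_gt (1 - ε) 0 with hε1 | hε1
    · refine (mul_nonpos_of_nonpos_of_nonneg hε1 (by linarith)).trans ?_
      apply sum_nonneg
      intro m hm
      unfold win at hm
      rw [mem_Ioc] at hm
      apply div_nonneg zero_le_one
      apply Real.log_nonneg
      have : 1 ≤ m := by omega
      exact_mod_cast this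
    have : ∀ m ∈ win B n, 1 / (l + Real.log 2) ≤ 1 / Real.log m := by
      intro m hm
      unfold win at hm
      rw [mem_Ioc] at hm
      have hm0 : (n : ℝ) < m := by exact_mod_cast hm.1
      have hm1 : (m : ℝ) ≤ n + h := by exact_mod_cast hm.2
      apply one_div_le_one_div_of_le
      · apply Real.log_pos
        have : (3 : ℝ) ≤ n := by exact_mod_cast hn3
        linarith
      · rw [hldef, ← Real.log_mul hn0.ne' two_ne_zero]
        apply Real.log_le_log (by linarith)
        linarith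
    refine le_trans ?_ (sum_le_sum this)
    have hlog2 : Real.log 2 ≤ 1 := by
      have := Real.log_two_lt_d9
      linarith
    have hlog20 : 0 < Real.log 2 := Real.log_pos (by norm_num)
    rw [sum_const, nsmul_eq_mul, hcard, mul_one_div, le_div_iff₀ (by linarith)]
    have h3 : 2 ≤ ε * l := by
      rw [div_le_iff₀ hε] at hl2
      linarith
    have h4 : 2 * z ≤ ε * l * z := mul_le_mul_of_nonneg_right h3 (by linarith)
    have h5 : (1 - ε) * z * (l + Real.log 2) ≤ (1 - ε) * z * l + z := by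
      have : (1 - ε) * z * Real.log 2 ≤ 1 * z * 1 := by
        apply mul_le_mul _ hlog2 hlog20.le (by linarith)
        apply mul_le_mul_of_nonneg_right _ (by linarith)
        linarith
      linarith
    have h6 : (1 - ε) * z * l = y - ε * l * z := by rw [hyz]; ring
    linarith
  rw [abs_le]
  constructor
  · linarith
  · have : 0 ≤ ε * z := by positivity
    linarith

/-- the hypotheses of the model -/
structure Cram {Ω : Type} [MeasurableSpace Ω] (μ : Measure Ω) (E : ℕ → Set Ω) : Prop where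
  meas : ∀ m, MeasurableSet (E m)
  ind : iIndepSet E μ
  prob : ∀ m : ℕ, 3 ≤ m → μ (E m) = ENNReal.ofReal (1 / Real.log m)

variable {Ω : Type} [MeasurableSpace Ω]

/-- the irregular event at `n` -/
def bad (E : ℕ → Set Ω) (B δ : ℝ) (n : ℕ) : Set Ω :=
  {ω | δ * Real.log n ^ (B - 1) ≤ |NN E (win B n) ω - Real.log n ^ (B - 1)|}

lemma meas_NN (E : ℕ → Set Ω) (hE : ∀ m, MeasurableSet (E m)) (s : Finset ℕ) :
    Measurable (NN E s) := by
  unfold NN
  exact Finset.measurable_fun_sum s (fun m _ => measurable_const.indicator (hE m))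

lemma meas_bad (E : ℕ → Set Ω) (hE : ∀ m, MeasurableSet (E m)) (B δ : ℝ) (n : ℕ) :
    MeasurableSet (bad E B δ n) := by
  unfold bad
  exact measurableSet_le measurable_const ((meas_NN E hE _).sub_const _).abs

lemma prob_bad (B δ : ℝ) (hB : 1 < B) (hδ : 0 < δ) (hδ1 : δ ≤ 1) : ∀ᶠ n : ℕ in atTop,
    ∀ (Ω : Type) [MeasurableSpace Ω] (μ : Measure Ω) [IsProbabilityMeasure μ] (E : ℕ → Set Ω),
      Cram μ E → μ.real (bad E B δ n) ≤ 2 * Real.exp (-(δ ^ 2 / 32 * Real.log n ^ (B - 1))) := by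
  filter_upwards [mean_close B (δ / 4) hB (by positivity), eventually_ge_atTop 3] with n hn hn3
  intro Ω _ μ _ E hC
  have hlog : 1 ≤ Real.log n := by
    have h1 : Real.exp 1 ≤ n := by
      have := Real.exp_one_lt_d9
      have h3 : (3 : ℝ) ≤ n := by exact_mod_cast hn3
      linarith
    rwa [Real.le_log_iff_exp_le (by linarith [Real.exp_pos 1])]
  set z := Real.log (n : ℝ) ^ (B - 1) with hz
  have hz1 : 1 ≤ z := Real.one_le_rpow hlog (by linarith)
  have hsum : ∑ m ∈ win B n, μ.real (E m) = ∑ m ∈ win B n, 1 / Real.log m := by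
    apply sum_congr rfl
    intro m hm
    unfold win at hm
    rw [mem_Ioc] at hm
    rw [measureReal_def, hC.prob m (by omega), ENNReal.toReal_ofReal]
    apply div_nonneg zero_le_one
    apply Real.log_nonneg
    have : 1 ≤ m := by omega
    exact_mod_cast this
  set M := ∑ m ∈ win B n, μ.real (E m) with hM
  rw [← hsum] at hn
  have hn' := abs_le.mp hn
  have hc := chernoff2 μ E hC.meas hC.ind (win B n) (δ / 2) (by linarith) (by linarith)
  rw [← hM] at hc
  have hM1 : 3 / 4 * z ≤ M := by nlinarith [hn'.1]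
  have hM2 : M ≤ 5 / 4 * z := by nlinarith [hn'.2]
  have hsub : bad E B δ n ⊆ {ω | δ / 2 * M ≤ |NN E (win B n) ω - M|} := by
    intro ω hω
    unfold bad at hω
    simp only [Set.mem_ofPred_eq] at hω ⊢
    rw [← hz] at hω
    have h1 : |NN E (win B n) ω - z| ≤ |NN E (win B n) ω - M| + |M - z| := by
      have : NN E (win B n) ω - z = (NN E (win B n) ω - M) + (M - z) := by ring
      rw [this]
      exact abs_add_le _ _
    have h2 : δ / 2 * M ≤ δ / 2 * (5 / 4 * z) := mul_le_mul_of_nonneg_left hM2 (by linarith)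
    nlinarith
  calc μ.real (bad E B δ n) ≤ _ := measureReal_mono hsub
    _ ≤ _ := hc
    _ ≤ 2 * Real.exp (-(δ ^ 2 / 32 * z)) := by
        apply mul_le_mul_of_nonneg_left _ zero_le_two
        apply Real.exp_le_exp.mpr
        have h3 : 0 < δ ^ 2 := by positivity
        nlinarith

/-- number of the `n ∈ (2 ^ j, 2 ^ (j + 1)]` with an irregular interval -/
noncomputable def TT (E : ℕ → Set Ω) (B δ : ℝ) (j : ℕ) (ω : Ω) : ℝ :=
  ∑ n ∈ Ioc (2 ^ j) (2 ^ (j + 1)), (bad E B δ n).indicator (fun _ => (1 : ℝ)) ω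

/-- threshold -/
noncomputable def aa (B c : ℝ) (j : ℕ) : ℝ :=
  2 ^ j * Real.exp (-(c * (j * Real.log 2) ^ (B - 1)))

lemma aa_pos (B c : ℝ) (j : ℕ) : 0 < aa B c j := by
  unfold aa
  positivity

lemma prob_TT (B δ : ℝ) (hB : 1 < B) (hδ : 0 < δ) (hδ1 : δ ≤ 1) : ∀ᶠ j : ℕ in atTop,
    ∀ (Ω : Type) [MeasurableSpace Ω] (μ : Measure Ω) [IsProbabilityMeasure μ] (E : ℕ → Set Ω),
      Cram μ E → μ.real {ω | aa B (δ ^ 2 / 64) j ≤ TT E B δ j ω} ≤
        2 * Real.exp (-(δ ^ 2 / 64 * (j * Real.log 2) ^ (B - 1))) := by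
  obtain ⟨n0, hn0⟩ := eventually_atTop.mp (prob_bad B δ hB hδ hδ1)
  filter_upwards [eventually_ge_atTop n0] with j hj
  intro Ω _ μ _ E hC
  have hj2 : j < 2 ^ j := Nat.lt_two_pow_self
  have hint : ∀ n, Integrable ((bad E B δ n).indicator (fun _ : Ω => (1 : ℝ))) μ :=
    fun n => (integrable_const _).indicator (meas_bad E hC.meas B δ n)
  have hlog2 : 0 < Real.log 2 := Real.log_pos (by norm_num)
  set u := (j * Real.log 2) ^ (B - 1) with hu
  have hET : ∫ ω, TT E B δ j ω ∂μ ≤ 2 ^ j * (2 * Real.exp (-(δ ^ 2 / 32 * u))) := by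
    unfold TT
    rw [integral_finsetSum _ (fun n _ => hint n)]
    have h1 : ∀ n ∈ Ioc (2 ^ j) (2 ^ (j + 1)),
        ∫ ω, (bad E B δ n).indicator (fun _ : Ω => (1 : ℝ)) ω ∂μ ≤
          2 * Real.exp (-(δ ^ 2 / 32 * u)) := by
      intro n hn
      rw [mem_Ioc] at hn
      rw [integral_indicator (meas_bad E hC.meas B δ n)]
      simp only [integral_const, smul_eq_mul, mul_one, measureReal_restrict_apply_univ]
      refine (hn0 n (by omega) Ω μ E hC).trans ?_
      apply mul_le_mul_of_nonneg_left _ zero_le_two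
      apply Real.exp_le_exp.mpr
      apply neg_le_neg
      apply mul_le_mul_of_nonneg_left _ (by positivity)
      rw [hu]
      apply Real.rpow_le_rpow (by positivity) _ (by linarith)
      rw [← Real.log_pow]
      apply Real.log_le_log (by positivity)
      have := hn.1.le
      exact_mod_cast this
    refine (sum_le_sum h1).trans ?_
    rw [sum_const, nsmul_eq_mul, Nat.card_Ioc]
    apply mul_le_mul_of_nonneg_right _ (by positivity)
    have : 2 ^ (j + 1) - 2 ^ j = 2 ^ j := by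
      rw [pow_succ]
      omega
    rw [this]
    push_cast
    exact le_rfl
  have hTnn : 0 ≤ᵐ[μ] TT E B δ j := by
    refine Eventually.of_forall (fun ω => ?_)
    unfold TT
    apply sum_nonneg
    intro n _
    exact Set.indicator_nonneg (fun _ _ => zero_le_one) _
  have hTint : Integrable (TT E B δ j) μ := by
    unfold TT
    exact integrable_finsetSum _ (fun n _ => hint n)
  have hmk := mul_meas_ge_le_integral_of_nonneg hTnn hTint (aa B (δ ^ 2 / 64) j)
  have h2 := hmk.trans hET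
  have hap := aa_pos B (δ ^ 2 / 64) j
  have h3 : 2 ^ j * (2 * Real.exp (-(δ ^ 2 / 32 * u))) =
      aa B (δ ^ 2 / 64) j * (2 * Real.exp (-(δ ^ 2 / 64 * u))) := by
    unfold aa
    rw [← hu]
    have : Real.exp (-(δ ^ 2 / 32 * u)) =
        Real.exp (-(δ ^ 2 / 64 * u)) * Real.exp (-(δ ^ 2 / 64 * u)) := by
      rw [← Real.exp_add]
      congr 1
      ring
    rw [this]
    ring
  rw [h3] at h2
  exact le_of_mul_le_mul_left h2 hap

lemma summ (b c : ℝ) (hb : 0 < b) (hc : 0 < c) :
    Summable (fun j : ℕ => 2 * Real.exp (-(c * (j * Real.log 2) ^ b))) := by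
  have hlog2 : 0 < Real.log 2 := Real.log_pos (by norm_num)
  have h1 : Tendsto (fun j : ℕ => (j : ℝ) * Real.log 2) atTop atTop :=
    Tendsto.atTop_mul_const hlog2 tendsto_natCast_atTop_atTop
  have h2 : ∀ᶠ x : ℝ in atTop, 2 * Real.log x ≤ c * x ^ b := by
    have := (isLittleO_log_rpow_atTop hb).bound (show (0 : ℝ) < c / 2 by positivity)
    filter_upwards [this, eventually_ge_atTop (1 : ℝ)] with x hx hx1
    rw [Real.norm_of_nonneg (Real.log_nonneg hx1),
      Real.norm_of_nonneg (Real.rpow_nonneg (by linarith) _)] at hx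
    linarith
  have h3 : Summable (fun j : ℕ => (2 / Real.log 2 ^ 2) * (1 / (j : ℝ) ^ 2)) :=
    (Real.summable_one_div_nat_pow.mpr one_lt_two).mul_left _
  apply Summable.of_norm_bounded_eventually_nat h3
  filter_upwards [h1.eventually h2, h1.eventually_gt_atTop 0, eventually_gt_atTop 0] with
    j hj1 hj2 hj3
  rw [Real.norm_of_nonneg (by positivity)]
  have h4 : Real.exp (-(c * (j * Real.log 2) ^ b)) ≤ Real.exp (-(2 * Real.log (j * Real.log 2))) :=
    Real.exp_le_exp.mpr (by linarith)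
  have h5 : Real.exp (-(2 * Real.log (j * Real.log 2))) = 1 / (j * Real.log 2) ^ 2 := by
    rw [Real.exp_neg, two_mul, Real.exp_add, Real.exp_log hj2]
    field_simp
  rw [h5] at h4
  have hj0 : (0 : ℝ) < j := by exact_mod_cast hj3
  calc 2 * Real.exp (-(c * (j * Real.log 2) ^ b)) ≤ 2 * (1 / (j * Real.log 2) ^ 2) := by linarith
    _ = 2 / Real.log 2 ^ 2 * (1 / (j : ℝ) ^ 2) := by
        field_simp

/-- almost surely all the large dyadic blocks have few irregular places -/
lemma ae_TT (B δ : ℝ) (hB : 1 < B) (hδ : 0 < δ) (hδ1 : δ ≤ 1)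
    (μ : Measure Ω) [IsProbabilityMeasure μ] (E : ℕ → Set Ω) (hC : Cram μ E) :
    ∀ᵐ ω ∂μ, ∀ᶠ j : ℕ in atTop, TT E B δ j ω < aa B (δ ^ 2 / 64) j := by
  have h1 : (∑' j, μ {ω | aa B (δ ^ 2 / 64) j ≤ TT E B δ j ω}) ≠ ⊤ := by
    obtain ⟨j0, hj0⟩ := eventually_atTop.mp (prob_TT B δ hB hδ hδ1)
    have hs := summ (B - 1) (δ ^ 2 / 64) (by linarith) (by positivity)
    have hs2 : Summable (fun j : ℕ => μ.real {ω | aa B (δ ^ 2 / 64) j ≤ TT E B δ j ω}) := by
      apply Summable.of_norm_bounded_eventually_nat hs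
      filter_upwards [eventually_ge_atTop j0] with j hj
      rw [Real.norm_of_nonneg measureReal_nonneg]
      exact hj0 j hj Ω μ E hC
    have h2 := hs2.tsum_ofReal_ne_top
    have h3 : ∀ j : ℕ, ENNReal.ofReal (μ.real {ω | aa B (δ ^ 2 / 64) j ≤ TT E B δ j ω}) =
        μ {ω | aa B (δ ^ 2 / 64) j ≤ TT E B δ j ω} :=
      fun j => ofReal_measureReal
    simpa only [h3] using h2
  filter_upwards [ae_eventually_notMem h1] with ω hω
  filter_upwards [hω] with j hj
  simpa only [Set.mem_ofPred_eq, not_le] using hj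

/-- number of the irregular `n ∈ (X, 3 X)` -/
lemma ae_count (B δ : ℝ) (hB : 1 < B) (hδ : 0 < δ) (hδ1 : δ ≤ 1)
    (μ : Measure Ω) [IsProbabilityMeasure μ] (E : ℕ → Set Ω) (hC : Cram μ E) :
    ∀ᵐ ω ∂μ, ∀ᶠ X : ℝ in atTop,
      ({n : ℕ | X < n ∧ (n : ℝ) < 3 * X ∧ ω ∈ bad E B δ n}.ncard : ℝ) ≤
        X * Real.exp (-(δ ^ 2 / 128 * (1 / 2) ^ (B - 1) * Real.log X ^ (B - 1))) := by
  classical
  filter_upwards [ae_TT B δ hB hδ hδ1 μ E hC] with ω hω
  obtain ⟨j0, hj0⟩ := eventually_atTop.mp hω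
  have hlog2 : 0 < Real.log 2 := Real.log_pos (by norm_num)
  have hlog2' : Real.log 2 ≤ 1 := by
    have := Real.log_two_lt_d9
    linarith
  have e1 : ∀ᶠ X : ℝ in atTop, Real.log 7 ≤
      δ ^ 2 / 128 * (1 / 2) ^ (B - 1) * Real.log X ^ (B - 1) := by
    have h1 : Tendsto (fun X : ℝ => δ ^ 2 / 128 * (1 / 2) ^ (B - 1) * Real.log X ^ (B - 1))
        atTop atTop := by
      apply Tendsto.const_mul_atTop (by positivity)
      exact (tendsto_rpow_atTop (by linarith)).comp Real.tendsto_log_atTop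
    exact h1.eventually_ge_atTop _
  filter_upwards [e1, Real.tendsto_log_atTop.eventually_ge_atTop (2 : ℝ),
    eventually_ge_atTop ((2 : ℝ) ^ (j0 + 1))] with X h1 h2 h3
  have hX1 : 1 ≤ X := by
    refine le_trans ?_ h3
    exact one_le_pow₀ (by norm_num)
  have hX0 : 0 < X := by linarith
  obtain ⟨j, hj1, hj2⟩ : ∃ j : ℕ, (2 : ℝ) ^ j ≤ X ∧ X < 2 ^ (j + 1) :=
    exists_nat_pow_near hX1 (by norm_num)
  have hjj : j0 ≤ j := by
    by_contra hcon
    push Not at hcon
    have : (2 : ℝ) ^ (j + 1) ≤ 2 ^ (j0 + 1) := pow_le_pow_right₀ (by norm_num) (by omega)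
    linarith
  set U : ℕ → Finset ℕ := fun i => (Ioc (2 ^ i) (2 ^ (i + 1))).filter (fun n => ω ∈ bad E B δ n)
    with hU
  have hUT : ∀ i, ((U i).card : ℝ) = TT E B δ i ω := by
    intro i
    unfold TT
    rw [hU, card_filter]
    push_cast
    apply sum_congr rfl
    intro n _
    by_cases h : ω ∈ bad E B δ n
    · simp [h]
    · simp [h]
  have hsub : {n : ℕ | X < n ∧ (n : ℝ) < 3 * X ∧ ω ∈ bad E B δ n} ⊆
      ((U j ∪ U (j + 1) ∪ U (j + 2) : Finset ℕ) : Set ℕ) := by
    intro n hn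
    simp only [Set.mem_ofPred_eq] at hn
    obtain ⟨g1, g2, g3⟩ := hn
    have g4 : 2 ^ j < n := by
      have : (2 : ℝ) ^ j < n := by linarith
      exact_mod_cast this
    have g5 : n < 2 ^ (j + 3) := by
      have : (n : ℝ) < 2 ^ (j + 3) := by
        have : (2 : ℝ) ^ (j + 3) = 4 * 2 ^ (j + 1) := by ring
        linarith
      exact_mod_cast this
    simp only [hU, coe_union, Set.mem_union, mem_coe, mem_filter, mem_Ioc]
    by_cases k1 : n ≤ 2 ^ (j + 1)
    · exact Or.inl (Or.inl ⟨⟨g4, k1⟩, g3⟩)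
    by_cases k2 : n ≤ 2 ^ (j + 2)
    · exact Or.inl (Or.inr ⟨⟨by omega, k2⟩, g3⟩)
    · exact Or.inr ⟨⟨by omega, g5.le⟩, g3⟩
  have hcard : ({n : ℕ | X < n ∧ (n : ℝ) < 3 * X ∧ ω ∈ bad E B δ n}.ncard : ℝ) ≤
      TT E B δ j ω + TT E B δ (j + 1) ω + TT E B δ (j + 2) ω := by
    have k1 := Set.ncard_le_ncard hsub (Finset.finite_toSet _)
    rw [Set.ncard_coe_finset] at k1
    have k2 := card_union_le (U j ∪ U (j + 1)) (U (j + 2))
    have k3 := card_union_le (U j) (U (j + 1))
    rw [← hUT, ← hUT, ← hUT]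
    have k4 : {n : ℕ | X < n ∧ (n : ℝ) < 3 * X ∧ ω ∈ bad E B δ n}.ncard ≤
      (U j).card + (U (j + 1)).card + (U (j + 2)).card := by omega
    exact_mod_cast k4
  have hJL : 1 / 2 * Real.log X ≤ j * Real.log 2 := by
    have k1 : Real.log X ≤ Real.log (2 ^ (j + 1)) := Real.log_le_log hX0 hj2.le
    rw [Real.log_pow] at k1
    push_cast at k1
    linarith
  set c := δ ^ 2 / 64 with hc
  have hc0 : 0 < c := by positivity
  have haa : ∀ i : ℕ, aa B c (j + i) ≤ 2 ^ i * (X * Real.exp (-(c * (j * Real.log 2) ^ (B - 1)))) := by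
    intro i
    unfold aa
    rw [pow_add, mul_comm ((2 : ℝ) ^ j) (2 ^ i), mul_assoc]
    apply mul_le_mul_of_nonneg_left _ (by positivity)
    apply mul_le_mul hj1 _ (by positivity) (by linarith)
    apply Real.exp_le_exp.mpr
    apply neg_le_neg
    apply mul_le_mul_of_nonneg_left _ hc0.le
    apply Real.rpow_le_rpow (by positivity) _ (by linarith)
    apply mul_le_mul_of_nonneg_right _ hlog2.le
    push_cast
    linarith [(Nat.cast_nonneg i : (0 : ℝ) ≤ i)]
  have hb0 := (hj0 j hjj).le.trans (haa 0)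
  have hb1 := (hj0 (j + 1) (by omega)).le.trans (haa 1)
  have hb2 := (hj0 (j + 2) (by omega)).le.trans (haa 2)
  have hexp : Real.exp (-(c * (j * Real.log 2) ^ (B - 1))) ≤
      Real.exp (-(2 * (δ ^ 2 / 128 * (1 / 2) ^ (B - 1) * Real.log X ^ (B - 1)))) := by
    apply Real.exp_le_exp.mpr
    apply neg_le_neg
    have k1 : (1 / 2 * Real.log X) ^ (B - 1) ≤ (j * Real.log 2) ^ (B - 1) :=
      Real.rpow_le_rpow (by positivity) hJL (by linarith)
    rw [Real.mul_rpow (by norm_num) (by linarith)] at k1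
    calc 2 * (δ ^ 2 / 128 * (1 / 2) ^ (B - 1) * Real.log X ^ (B - 1)) =
        c * ((1 / 2) ^ (B - 1) * Real.log X ^ (B - 1)) := by rw [hc]; ring
      _ ≤ _ := mul_le_mul_of_nonneg_left k1 hc0.le
  set v := δ ^ 2 / 128 * (1 / 2) ^ (B - 1) * Real.log X ^ (B - 1) with hv
  have h7 : 7 * Real.exp (-(2 * v)) ≤ Real.exp (-v) := by
    have k1 : (7 : ℝ) ≤ Real.exp v := by
      rw [← Real.exp_log (show (0 : ℝ) < 7 by norm_num)]
      exact Real.exp_le_exp.mpr h1
    have k2 : Real.exp (-v) = Real.exp v * Real.exp (-(2 * v)) := by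
      rw [← Real.exp_add]
      congr 1
      ring
    rw [k2]
    exact mul_le_mul_of_nonneg_right k1 (Real.exp_pos _).le
  have h8 : X * Real.exp (-(c * (j * Real.log 2) ^ (B - 1))) ≤ X * Real.exp (-(2 * v)) :=
    mul_le_mul_of_nonneg_left hexp hX0.le
  have h9 : X * (7 * Real.exp (-(2 * v))) ≤ X * Real.exp (-v) :=
    mul_le_mul_of_nonneg_left h7 hX0.le
  linarith

end Pool.Agent.V5helper42.MF
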