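import Pool.Agent.V5helper42.MF.Cnt
import Pool.Agent.N610.MS.BON
import Pool.Agent.N610.MS.LEG
import Pool.Agent.N610.MS.ROWS
import Pool.Agent.N610.MS.MAIN
import Pool.Agent.V5helper42.MF.Model2

set_option autoImplicit false

/-!
# Maier's phenomenon with small moduli: frequency of the irregular intervals (helper42)
-/

namespace Pool.Agent.V5helper42.MF

open Finset Filter Topology
open Pool.Agent.H378R2 (WW PW GoodS)
open Pool.Agent.N610.MS

/-- Maier's matrix with a modulus at most `exp ((log X) ^ b)` -/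
theorem main (a b : ℝ) (ha : 0 < a) (hb : 0 < b) : ∃ κ : ℝ, 0 < κ ∧
    ∀ σ : ℝ, (σ = 1 ∨ σ = -1) → ∃ δ : ℝ, 0 < δ ∧ δ ≤ 1 ∧
    ∀ᶠ X : ℝ in atTop, ∃ (W : ℝ) (w : ℕ → ℝ), 0 < W ∧ W ≤ Real.exp (Real.log X ^ b) ∧
      (∀ n, 0 ≤ w n ∧ w n ≤ 20 * W / X) ∧
      (∀ n, w n ≠ 0 → X < n ∧ (n : ℝ) < 3 * X) ∧
      ∑ n ∈ Icc 1 ⌊3 * X⌋₊, w n = 1 ∧
      (∀ y : ℝ, Real.log X ^ a ≤ y → y ≤ Real.log X ^ (a + κ) →
        δ ≤ σ * (∑ n ∈ Icc 1 ⌊3 * X⌋₊, w n * R n y - 1)) := by
  obtain ⟨κ, hκ, hcnt⟩ := cnt t_BON (t_LEG t_BON) a b ha hb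
  refine ⟨κ, hκ, fun σ hσ => ?_⟩
  obtain ⟨δ, hδ, hδ1, hc⟩ := hcnt σ hσ
  refine ⟨δ, hδ, hδ1, ?_⟩
  have hr := t_ROWS 1 (δ / 8) (by positivity)
  have hL : Tendsto (fun X : ℝ => 1 / Real.log X) atTop (nhds 0) := by
    simp only [one_div]
    exact Real.tendsto_log_atTop.inv_tendsto_atTop
  have hX10 : Tendsto (fun X : ℝ => X ^ (-(1 / 10) : ℝ)) atTop (nhds 0) :=
    tendsto_rpow_neg_atTop (by norm_num)
  have hpow : ∀ᶠ X : ℝ in atTop, Real.log X ^ (a + κ) ≤ X ^ (9 / 10 : ℝ) := by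
    have := (isLittleO_log_rpow_rpow_atTop (a + κ) (show (0 : ℝ) < 9 / 10 by norm_num)).bound
      (show (0 : ℝ) < 1 by norm_num)
    filter_upwards [this, eventually_ge_atTop (1 : ℝ)] with X hX hX1
    have hl : 0 ≤ Real.log X := Real.log_nonneg hX1
    rw [one_mul, Real.norm_of_nonneg (Real.rpow_nonneg hl _),
      Real.norm_of_nonneg (Real.rpow_nonneg (by linarith) _)] at hX
    exact hX
  filter_upwards [hc, hr, hL.eventually_le_const (show (0 : ℝ) < δ / 4 by positivity),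
    hX10.eventually_le_const (show (0 : ℝ) < δ / 4 by positivity), hpow,
    eventually_gt_atTop (Real.exp 1)] with X hcX hrX hLX hX10X hpowX hXe
  obtain ⟨ps, S, hS, hrow⟩ := hrX
  obtain ⟨P, hP, hPX, hPB, hc1⟩ := hcX S ps hS
  obtain ⟨w, ρ, hρ, hw, hwn, hws, hwm⟩ := hrow P hP hPB
  have hXe1 : 1 < X := by
    have := Real.add_one_le_exp (1 : ℝ)
    linarith
  have hlog : 1 < Real.log X := by
    rw [Real.lt_log_iff_exp_lt (by linarith)]
    exact hXe
  have hW : 0 < ∏ p ∈ P, p := by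
    refine Finset.prod_pos fun p hp => ?_
    have h3 := hP hp
    rw [Pool.Agent.H378R2.PW, Finset.mem_filter] at h3
    exact h3.2.1.pos
  have hkey : ∀ y : ℝ, 0 < y → y ≤ X ^ (9 / 10 : ℝ) →
      |∑ n ∈ Icc 1 ⌊3 * X⌋₊, w n * R n y - rel P y| ≤ δ := by
    intro y hy hyX
    have h4 := MAIN.key (X := X) (L := Real.log X) (ρ := ρ) (ε' := δ / 8) (P := P) (w := w)
      (y := y) hXe1.le (by linarith) rfl hPB hρ (fun n => (hw n).1) (fun n hn => (hwn n hn).1) hws hy
      hyX (by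
        have h5 : ((⌊y⌋₊ : ℕ) : ℝ) ≤ X ^ (9 / 10 : ℝ) := (Nat.floor_le hy.le).trans hyX
        have h6 := hwm ⌊y⌋₊ h5
        rwa [pow_one] at h6)
    linarith
  have hσa : ∀ z : ℝ, |σ * z| = |z| := by
    intro z
    rcases hσ with h | h <;> rw [h] <;> simp
  refine ⟨((∏ p ∈ P, p : ℕ) : ℝ), w, by exact_mod_cast hW, hPX, hw,
    fun n hn => ⟨(hwn n hn).1, (hwn n hn).2.1⟩, hws, ?_⟩
  intro y hy1 hy2
  have hy0 : 0 < y := lt_of_lt_of_le (Real.rpow_pos_of_pos (by linarith) _) hy1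
  have h4 := hkey y hy0 (hy2.trans hpowX)
  have h5 := hc1 y hy1 hy2
  rw [← hσa] at h4
  have h6 := (abs_le.1 h4).1
  have e : σ * (∑ n ∈ Icc 1 ⌊3 * X⌋₊, w n * R n y - 1) =
      σ * (∑ n ∈ Icc 1 ⌊3 * X⌋₊, w n * R n y - rel P y) + σ * (rel P y - 1) := by ring
  rw [e]
  linarith

/-- number of primes in the window `(n, n + (log n) ^ B]` -/
noncomputable def cp (B : ℝ) (n : ℕ) : ℝ := (((win B n).filter Nat.Prime).card : ℝ)

/-- comparison of the count in `(n, n + ⌊y⌋]` with `R` -/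
lemma R_eq {n : ℕ} {y : ℝ} (hy : 0 < y) :
    (((Ioc n (n + ⌊y⌋₊)).filter Nat.Prime).card : ℝ) * Real.log n = R n y * y := by
  unfold R
  have e1 : ⌊(n : ℝ) + y⌋₊ = n + ⌊y⌋₊ := by
    rw [add_comm, Nat.floor_add_natCast hy.le, add_comm]
  have e2 : ⌊(n : ℝ)⌋₊ = n := Nat.floor_natCast n
  rw [e1, e2, MAIN.cnt_eq, div_div_eq_mul_div]
  field_simp

/-- the abstract counting argument: weights at most `M` of total mass `1` -/
lemma count_of_mass {s T : Finset ℕ} (w : ℕ → ℝ) (M η : ℝ) (hM : 0 < M)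
    (hw : ∀ n, 0 ≤ w n ∧ w n ≤ M) (hT : η ≤ ∑ n ∈ s with n ∈ T, w n) : η / M ≤ T.card := by
  rw [div_le_iff₀ hM]
  refine hT.trans ?_
  calc ∑ n ∈ s with n ∈ T, w n ≤ ∑ n ∈ s with n ∈ T, M := sum_le_sum (fun n _ => (hw n).2)
    _ = ((s.filter (fun n => n ∈ T)).card : ℝ) * M := by rw [sum_const, nsmul_eq_mul]
    _ ≤ T.card * M := by
        apply mul_le_mul_of_nonneg_right _ hM.le
        have : (s.filter (fun n => n ∈ T)).card ≤ T.card := by
          apply card_le_card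
          intro n hn
          exact (mem_filter.mp hn).2
        exact_mod_cast this

/-- analytic facts, for large `X` -/
lemma facts (B κ δ β : ℝ) (hκ : 0 < κ) (hδ : 0 < δ) (hβ : 0 < β) :
    ∀ᶠ X : ℝ in atTop, 3 < X ∧ 2 ≤ Real.log X ∧ Real.log (3 * X) ≤ 2 * Real.log X ∧
      Real.log (3 * X) ^ B ≤ (1 + δ / 16) * Real.log X ^ B ∧
      Real.log (3 * X) ^ B ≤ Real.log X ^ (B + κ) ∧
      X * Real.exp (-Real.log X ^ β) ≤
        δ / (8 * Real.log X) / (20 * Real.exp (Real.log X ^ (β / 2)) / X) := by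
  have hl := Real.tendsto_log_atTop
  -- ratio of logarithms
  have h1 : Tendsto (fun X : ℝ => Real.log 3 / Real.log X) atTop (𝓝 0) := hl.const_div_atTop _
  have h2 : Tendsto (fun X : ℝ => (1 + Real.log 3 / Real.log X) ^ B) atTop (𝓝 1) := by
    have h3 : Tendsto (fun X : ℝ => 1 + Real.log 3 / Real.log X) atTop (𝓝 (1 + 0)) :=
      h1.const_add 1
    rw [add_zero] at h3
    have h4 := h3.rpow_const (p := B) (Or.inl one_ne_zero)
    rwa [Real.one_rpow] at h4
  have E1 := h2.eventually (eventually_le_nhds (show (1 : ℝ) < 1 + δ / 16 by linarith))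
  have E2 : ∀ᶠ X : ℝ in atTop, 1 + δ / 16 ≤ Real.log X ^ κ :=
    ((tendsto_rpow_atTop hκ).comp hl).eventually_ge_atTop _
  -- sizes
  have h5 : ∀ᶠ l : ℝ in atTop, 160 / δ * l ≤ Real.exp (l ^ (β / 2)) := by
    have h6 : ∀ᶠ l : ℝ in atTop, Real.log (160 / δ * l) ≤ l ^ (β / 2) := by
      have h7 := (isLittleO_log_rpow_atTop (show 0 < β / 2 by positivity)).bound
        (show (0 : ℝ) < 1 / 2 by norm_num)
      have h8 : ∀ᶠ l : ℝ in atTop, 2 * Real.log (160 / δ) ≤ l ^ (β / 2) :=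
        (tendsto_rpow_atTop (by positivity)).eventually_ge_atTop _
      filter_upwards [h7, h8, eventually_ge_atTop (1 : ℝ)] with l g1 g2 g3
      rw [Real.norm_of_nonneg (Real.log_nonneg g3),
        Real.norm_of_nonneg (Real.rpow_nonneg (by linarith) _)] at g1
      rw [Real.log_mul (by positivity) (by linarith)]
      linarith
    filter_upwards [h6, eventually_gt_atTop (0 : ℝ)] with l g1 g2
    rw [← Real.exp_log (show 0 < 160 / δ * l by positivity)]
    exact Real.exp_le_exp.mpr g1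
  have h9 : ∀ᶠ l : ℝ in atTop, 2 * l ^ (β / 2) ≤ l ^ β := by
    have h10 : ∀ᶠ l : ℝ in atTop, 2 ≤ l ^ (β / 2) :=
      (tendsto_rpow_atTop (by positivity)).eventually_ge_atTop _
    filter_upwards [h10, eventually_gt_atTop (0 : ℝ)] with l g1 g2
    have : l ^ β = l ^ (β / 2) * l ^ (β / 2) := by
      rw [← Real.rpow_add g2]
      congr 1
      ring
    rw [this]
    exact mul_le_mul_of_nonneg_right g1 (Real.rpow_nonneg g2.le _)
  filter_upwards [E1, E2, hl.eventually h5, hl.eventually h9, eventually_gt_atTop (3 : ℝ),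
    hl.eventually_ge_atTop (2 : ℝ)] with X g1 g2 g3 g4 g5 g6
  set l := Real.log X with hldef
  have hX : 0 < X := by linarith
  have hl0 : 0 < l := by linarith
  have hlog3 : 0 < Real.log 3 := Real.log_pos (by norm_num)
  have hlog3' : Real.log 3 ≤ 2 := by
    have h11 : Real.log 3 ≤ 3 - 1 := Real.log_le_sub_one_of_pos (by norm_num)
    linarith
  have hlog : Real.log (3 * X) = Real.log 3 + l := Real.log_mul (by norm_num) hX.ne'
  have hsplit : Real.log (3 * X) = l * (1 + Real.log 3 / l) := by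
    rw [hlog]
    field_simp
    ring
  have g7 : Real.log (3 * X) ^ B ≤ (1 + δ / 16) * l ^ B := by
    rw [hsplit, Real.mul_rpow hl0.le (by positivity), mul_comm]
    exact mul_le_mul_of_nonneg_right g1 (Real.rpow_nonneg hl0.le _)
  refine ⟨g5, g6, by rw [hlog]; linarith, g7, ?_, ?_⟩
  · refine g7.trans ?_
    rw [Real.rpow_add hl0, mul_comm]
    exact mul_le_mul_of_nonneg_left g2 (Real.rpow_nonneg hl0.le _)
  · rw [div_div_eq_mul_div, le_div_iff₀ (by positivity)]
    have g8 : Real.exp (-l ^ β) ≤ Real.exp (-(2 * l ^ (β / 2))) := Real.exp_le_exp.mpr (by linarith)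
    have g9 : Real.exp (-(2 * l ^ (β / 2))) * Real.exp (l ^ (β / 2)) * (160 / δ * l) ≤ 1 := by
      have g10 : Real.exp (-(2 * l ^ (β / 2))) * Real.exp (l ^ (β / 2)) =
          Real.exp (-(l ^ (β / 2))) := by
        rw [← Real.exp_add]
        congr 1
        ring
      rw [g10]
      calc Real.exp (-(l ^ (β / 2))) * (160 / δ * l) ≤
          Real.exp (-(l ^ (β / 2))) * Real.exp (l ^ (β / 2)) :=
            mul_le_mul_of_nonneg_left g3 (Real.exp_pos _).le
        _ = 1 := by rw [← Real.exp_add]; simp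
    have g11 : X * Real.exp (-l ^ β) * (20 * Real.exp (l ^ (β / 2))) ≤
        X * Real.exp (-(2 * l ^ (β / 2))) * (20 * Real.exp (l ^ (β / 2))) := by
      gcongr
    refine g11.trans ?_
    have g12 : X * Real.exp (-(2 * l ^ (β / 2))) * (20 * Real.exp (l ^ (β / 2))) =
        δ / (8 * l) * X * (Real.exp (-(2 * l ^ (β / 2))) * Real.exp (l ^ (β / 2)) *
          (160 / δ * l)) := by
      field_simp
      ring
    rw [g12]
    calc δ / (8 * l) * X * _ ≤ δ / (8 * l) * X * 1 := mul_le_mul_of_nonneg_left g9 (by positivity)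
      _ = _ := mul_one _

/-- the irregular places of `(X, 3 X)` with too many primes -/
theorem many (B β : ℝ) (hB : 1 < B) (hβ : 0 < β) : ∃ δ : ℝ, 0 < δ ∧ δ ≤ 1 ∧ ∀ᶠ X : ℝ in atTop,
    X * Real.exp (-Real.log X ^ β) ≤
      (((Icc 1 ⌊3 * X⌋₊).filter (fun n : ℕ => X < n ∧ (n : ℝ) < 3 * X ∧
        (1 + δ) * Real.log n ^ (B - 1) ≤ cp B n)).card : ℝ) := by
  obtain ⟨κ, hκ, hm⟩ := main B (β / 2) (by linarith) (by positivity)
  obtain ⟨δ, hδ, hδ1, hX⟩ := hm 1 (Or.inl rfl)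
  refine ⟨δ / 4, by positivity, by linarith, ?_⟩
  filter_upwards [hX, facts B κ δ β hκ hδ hβ] with X h1 h2
  obtain ⟨W, w, hW, hWX, hw, hws, hw1, hR⟩ := h1
  obtain ⟨f1, f2, f3, f4, f5, f6⟩ := h2
  set l := Real.log X with hldef
  have hX0 : 0 < X := by linarith
  have hl0 : 0 < l := by linarith
  set y := l ^ B with hy
  have hy2 : 2 ≤ y := by
    rw [hy]
    calc (2 : ℝ) = 2 ^ (1 : ℝ) := (Real.rpow_one 2).symm
      _ ≤ 2 ^ B := Real.rpow_le_rpow_of_exponent_le (by norm_num) hB.le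
      _ ≤ l ^ B := Real.rpow_le_rpow (by norm_num) f2 (by linarith)
  have hy0 : 0 < y := by linarith
  have hmean := hR y le_rfl
    (Real.rpow_le_rpow_of_exponent_le (by linarith) (by linarith))
  rw [one_mul] at hmean
  set T := (Icc 1 ⌊3 * X⌋₊).filter (fun n : ℕ => X < n ∧ (n : ℝ) < 3 * X ∧
        (1 + δ / 4) * Real.log n ^ (B - 1) ≤ cp B n) with hT
  have hnn : ∀ n : ℕ, X < n → (n : ℝ) < 3 * X → l ≤ Real.log n ∧ Real.log n ≤ 2 * l ∧
      Real.log n ^ B ≤ (1 + δ / 16) * y ∧ y ≤ Real.log n ^ B := by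
    intro n hn1 hn2
    have k1 : l ≤ Real.log n := Real.log_le_log hX0 hn1.le
    have k2 : Real.log n ≤ Real.log (3 * X) := Real.log_le_log (by linarith) hn2.le
    refine ⟨k1, k2.trans f3, ?_, Real.rpow_le_rpow hl0.le k1 (by linarith)⟩
    exact (Real.rpow_le_rpow (by linarith) k2 (by linarith)).trans f4
  -- the values of `R`
  have hRle : ∀ n : ℕ, X < n → (n : ℝ) < 3 * X → R n y ≤ 2 * l := by
    intro n hn1 hn2
    obtain ⟨k1, k2, _, _⟩ := hnn n hn1 hn2
    have k3 := R_eq (n := n) hy0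
    have k4 : (((Ioc n (n + ⌊y⌋₊)).filter Nat.Prime).card : ℝ) ≤ y := by
      have : ((Ioc n (n + ⌊y⌋₊)).filter Nat.Prime).card ≤ (Ioc n (n + ⌊y⌋₊)).card :=
        card_filter_le _ _
      rw [Nat.card_Ioc] at this
      have h5 : (((Ioc n (n + ⌊y⌋₊)).filter Nat.Prime).card : ℝ) ≤ (⌊y⌋₊ : ℕ) := by
        exact_mod_cast (by omega : _ ≤ ⌊y⌋₊)
      exact h5.trans (Nat.floor_le hy0.le)
    have k5 : R n y * y ≤ 2 * l * y := by
      rw [← k3, mul_comm (2 * l) y]
      exact mul_le_mul k4 k2 (by linarith) hy0.le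
    exact le_of_mul_le_mul_right k5 hy0
  have hbig : ∀ n : ℕ, X < n → (n : ℝ) < 3 * X → 1 + δ / 2 ≤ R n y →
      (1 + δ / 4) * Real.log n ^ (B - 1) ≤ cp B n := by
    intro n hn1 hn2 hn3
    obtain ⟨k1, k2, k3, k4⟩ := hnn n hn1 hn2
    have hln : 0 < Real.log n := by linarith
    have k5 := R_eq (n := n) hy0
    have k6 : (((Ioc n (n + ⌊y⌋₊)).filter Nat.Prime).card : ℝ) ≤ cp B n := by
      unfold cp win
      have : ((Ioc n (n + ⌊y⌋₊)).filter Nat.Prime).card ≤
          ((Ioc n (n + ⌊Real.log n ^ B⌋₊)).filter Nat.Prime).card := by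
        apply card_le_card
        apply filter_subset_filter
        apply Ioc_subset_Ioc le_rfl
        have := Nat.floor_le_floor k4
        omega
      exact_mod_cast this
    have k7 : (1 + δ / 2) * y ≤ cp B n * Real.log n := by
      calc (1 + δ / 2) * y ≤ R n y * y := mul_le_mul_of_nonneg_right hn3 hy0.le
        _ = _ := k5.symm
        _ ≤ _ := mul_le_mul_of_nonneg_right k6 hln.le
    have k8 : (1 + δ / 4) * Real.log n ^ (B - 1) * Real.log n ≤ cp B n * Real.log n := by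
      refine le_trans ?_ k7
      have k9 : Real.log n ^ (B - 1) * Real.log n = Real.log n ^ B := by
        nth_rw 2 [← Real.rpow_one (Real.log (n : ℝ))]
        rw [← Real.rpow_add hln]
        congr 1
        ring
      rw [mul_assoc, k9]
      calc (1 + δ / 4) * Real.log n ^ B ≤ (1 + δ / 4) * ((1 + δ / 16) * y) :=
            mul_le_mul_of_nonneg_left k3 (by linarith)
        _ = ((1 + δ / 4) * (1 + δ / 16)) * y := by ring
        _ ≤ (1 + δ / 2) * y := by
            apply mul_le_mul_of_nonneg_right _ hy0.le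
            nlinarith
    exact le_of_mul_le_mul_right k8 hln
  -- mass of `T`
  have hmass : δ / (8 * l) ≤ ∑ n ∈ Icc 1 ⌊3 * X⌋₊ with n ∈ T, w n := by
    have k0 : ∑ n ∈ Icc 1 ⌊3 * X⌋₊, (1 + δ / 2) * w n = 1 + δ / 2 := by
      rw [← mul_sum, hw1, mul_one]
    have k1 : ∑ n ∈ Icc 1 ⌊3 * X⌋₊, w n * R n y ≤
        ∑ n ∈ Icc 1 ⌊3 * X⌋₊, (1 + δ / 2) * w n +
          2 * l * ∑ n ∈ Icc 1 ⌊3 * X⌋₊ with n ∈ T, w n := by
      rw [mul_sum (Icc 1 ⌊3 * X⌋₊ |>.filter (fun n => n ∈ T)), sum_filter, ← sum_add_distrib]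
      apply sum_le_sum
      intro n hn
      obtain ⟨w0, _⟩ := hw n
      by_cases hwn : w n = 0
      · rw [hwn]
        simp
      obtain ⟨hn1, hn2⟩ := hws n hwn
      by_cases hnT : n ∈ T
      · rw [if_pos hnT]
        have := mul_le_mul_of_nonneg_left (hRle n hn1 hn2) w0
        have k2 : 0 ≤ (1 + δ / 2) * w n := by positivity
        linarith
      · rw [if_neg hnT]
        have k3 : R n y ≤ 1 + δ / 2 := by
          by_contra hcon
          push Not at hcon
          apply hnT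
          rw [hT, mem_filter]
          exact ⟨hn, hn1, hn2, hbig n hn1 hn2 hcon.le⟩
        have := mul_le_mul_of_nonneg_left k3 w0
        linarith
    rw [div_le_iff₀ (by positivity)]
    linarith
  have hc := count_of_mass w (20 * W / X) _ (by positivity) hw hmass
  refine le_trans ?_ hc
  refine f6.trans ?_
  apply div_le_div_of_nonneg_left (by positivity) (by positivity)
  gcongr

/-- the irregular places of `(X, 3 X)` with too few primes -/
theorem few (B β : ℝ) (hB : 1 < B) (hβ : 0 < β) : ∃ δ : ℝ, 0 < δ ∧ δ ≤ 1 ∧ ∀ᶠ X : ℝ in atTop,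
    X * Real.exp (-Real.log X ^ β) ≤
      (((Icc 1 ⌊3 * X⌋₊).filter (fun n : ℕ => X < n ∧ (n : ℝ) < 3 * X ∧
        cp B n ≤ (1 - δ) * Real.log n ^ (B - 1))).card : ℝ) := by
  obtain ⟨κ, hκ, hm⟩ := main B (β / 2) (by linarith) (by positivity)
  obtain ⟨δ, hδ, hδ1, hX⟩ := hm (-1) (Or.inr rfl)
  refine ⟨δ / 4, by positivity, by linarith, ?_⟩
  filter_upwards [hX, facts B κ δ β hκ hδ hβ] with X h1 h2
  obtain ⟨W, w, hW, hWX, hw, hws, hw1, hR⟩ := h1
  obtain ⟨f1, f2, f3, f4, f5, f6⟩ := h2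
  set l := Real.log X with hldef
  have hX0 : 0 < X := by linarith
  have hl0 : 0 < l := by linarith
  have hl3 : l ≤ Real.log (3 * X) := Real.log_le_log hX0 (by linarith)
  set y := Real.log (3 * X) ^ B with hy
  have hly : l ^ B ≤ y := Real.rpow_le_rpow hl0.le hl3 (by linarith)
  have hlB : 0 < l ^ B := Real.rpow_pos_of_pos hl0 _
  have hy0 : 0 < y := by linarith
  have hmean := hR y hly f5
  set T := (Icc 1 ⌊3 * X⌋₊).filter (fun n : ℕ => X < n ∧ (n : ℝ) < 3 * X ∧
        cp B n ≤ (1 - δ / 4) * Real.log n ^ (B - 1)) with hT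
  have hnn : ∀ n : ℕ, X < n → (n : ℝ) < 3 * X → l ≤ Real.log n ∧
      y ≤ (1 + δ / 16) * Real.log n ^ B ∧ Real.log n ^ B ≤ y := by
    intro n hn1 hn2
    have k1 : l ≤ Real.log n := Real.log_le_log hX0 hn1.le
    have k2 : Real.log n ≤ Real.log (3 * X) := Real.log_le_log (by linarith) hn2.le
    refine ⟨k1, ?_, Real.rpow_le_rpow (by linarith) k2 (by linarith)⟩
    refine f4.trans ?_
    apply mul_le_mul_of_nonneg_left _ (by linarith)
    exact Real.rpow_le_rpow hl0.le k1 (by linarith)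
  have hR0 : ∀ n : ℕ, X < n → 0 ≤ R n y := by
    intro n hn1
    have hln : 0 ≤ Real.log n := Real.log_nonneg (by linarith)
    have k3 := R_eq (n := n) hy0
    have k4 : 0 ≤ R n y * y := by
      rw [← k3]
      positivity
    exact nonneg_of_mul_nonneg_left k4 hy0
  have hsmall : ∀ n : ℕ, X < n → (n : ℝ) < 3 * X → R n y ≤ 1 - δ / 2 →
      cp B n ≤ (1 - δ / 4) * Real.log n ^ (B - 1) := by
    intro n hn1 hn2 hn3
    obtain ⟨k1, k3, k4⟩ := hnn n hn1 hn2
    have hln : 0 < Real.log n := by linarith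
    have k5 := R_eq (n := n) hy0
    have k6 : cp B n ≤ (((Ioc n (n + ⌊y⌋₊)).filter Nat.Prime).card : ℝ) := by
      unfold cp win
      have : ((Ioc n (n + ⌊Real.log n ^ B⌋₊)).filter Nat.Prime).card ≤
          ((Ioc n (n + ⌊y⌋₊)).filter Nat.Prime).card := by
        apply card_le_card
        apply filter_subset_filter
        apply Ioc_subset_Ioc le_rfl
        have := Nat.floor_le_floor k4
        omega
      exact_mod_cast this
    have k7 : cp B n * Real.log n ≤ (1 - δ / 2) * y := by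
      calc cp B n * Real.log n ≤ _ := mul_le_mul_of_nonneg_right k6 hln.le
        _ = R n y * y := k5
        _ ≤ _ := mul_le_mul_of_nonneg_right hn3 hy0.le
    have k8 : cp B n * Real.log n ≤ (1 - δ / 4) * Real.log n ^ (B - 1) * Real.log n := by
      refine k7.trans ?_
      have k9 : Real.log n ^ (B - 1) * Real.log n = Real.log n ^ B := by
        nth_rw 2 [← Real.rpow_one (Real.log (n : ℝ))]
        rw [← Real.rpow_add hln]
        congr 1
        ring
      rw [mul_assoc, k9]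
      have hnB : 0 < Real.log (n : ℝ) ^ B := Real.rpow_pos_of_pos hln _
      calc (1 - δ / 2) * y ≤ (1 - δ / 2) * ((1 + δ / 16) * Real.log n ^ B) :=
            mul_le_mul_of_nonneg_left k3 (by linarith)
        _ = ((1 - δ / 2) * (1 + δ / 16)) * Real.log n ^ B := by ring
        _ ≤ (1 - δ / 4) * Real.log n ^ B := by
            apply mul_le_mul_of_nonneg_right _ hnB.le
            nlinarith
    exact le_of_mul_le_mul_right k8 hln
  -- mass of `T`
  have hmass : δ / (8 * l) ≤ ∑ n ∈ Icc 1 ⌊3 * X⌋₊ with n ∈ T, w n := by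
    have k0 : ∑ n ∈ Icc 1 ⌊3 * X⌋₊, (1 - δ / 2) * w n = 1 - δ / 2 := by
      rw [← mul_sum, hw1, mul_one]
    have k1 : ∑ n ∈ Icc 1 ⌊3 * X⌋₊, (1 - δ / 2) * w n -
        (1 - δ / 2) * ∑ n ∈ Icc 1 ⌊3 * X⌋₊ with n ∈ T, w n ≤
        ∑ n ∈ Icc 1 ⌊3 * X⌋₊, w n * R n y := by
      rw [mul_sum (Icc 1 ⌊3 * X⌋₊ |>.filter (fun n => n ∈ T)), sum_filter, ← sum_sub_distrib]
      apply sum_le_sum
      intro n hn
      obtain ⟨w0, _⟩ := hw n
      by_cases hwn : w n = 0
      · rw [hwn]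
        simp
      obtain ⟨hn1, hn2⟩ := hws n hwn
      by_cases hnT : n ∈ T
      · rw [if_pos hnT]
        have := mul_nonneg w0 (hR0 n hn1)
        linarith
      · rw [if_neg hnT]
        have k3 : 1 - δ / 2 ≤ R n y := by
          by_contra hcon
          push Not at hcon
          apply hnT
          rw [hT, mem_filter]
          exact ⟨hn, hn1, hn2, hsmall n hn1 hn2 hcon.le⟩
        have := mul_le_mul_of_nonneg_left k3 w0
        linarith
    have k2 : 0 ≤ ∑ n ∈ Icc 1 ⌊3 * X⌋₊ with n ∈ T, w n := sum_nonneg (fun n _ => (hw n).1)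
    have k3 : δ / 2 ≤ ∑ n ∈ Icc 1 ⌊3 * X⌋₊ with n ∈ T, w n := by nlinarith
    refine le_trans ?_ k3
    apply div_le_div_of_nonneg_left hδ.le (by norm_num)
    linarith
  have hc := count_of_mass w (20 * W / X) _ (by positivity) hw hmass
  refine le_trans ?_ hc
  refine f6.trans ?_
  apply div_le_div_of_nonneg_left (by positivity) (by positivity)
  gcongr

end Pool.Agent.V5helper42.MF
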