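import Mathlib

set_option autoImplicit false

/-!
# Cramér's random model: the intervals with an irregular number of elements are rare (helper42)
-/

namespace Pool.Agent.V5helper42.MF

open MeasureTheory ProbabilityTheory Finset Filter

lemma exp_sub_one_le {t : ℝ} (ht : |t| ≤ 1) : Real.exp t - 1 - t ≤ t ^ 2 := by
  have h := Real.abs_exp_sub_one_sub_id_le ht
  exact (abs_le.mp h).2

variable {Ω : Type} [MeasurableSpace Ω]

/-- number of the events `E m`, `m ∈ s`, which occur -/
noncomputable def NN (E : ℕ → Set Ω) (s : Finset ℕ) (ω : Ω) : ℝ :=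
  ∑ m ∈ s, (E m).indicator (fun _ => (1 : ℝ)) ω

lemma mgf_ind (μ : Measure Ω) [IsProbabilityMeasure μ] (A : Set Ω) (hA : MeasurableSet A) (t : ℝ) :
    mgf (A.indicator (fun _ => (1 : ℝ))) μ t = 1 + μ.real A * (Real.exp t - 1) := by
  unfold mgf
  have h1 : (fun ω => Real.exp (t * A.indicator (fun _ => (1 : ℝ)) ω)) =
      fun ω => 1 + A.indicator (fun _ => Real.exp t - 1) ω := by
    funext ω
    by_cases h : ω ∈ A
    · simp [Set.indicator_of_mem h]
    · simp [Set.indicator_of_notMem h]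
  rw [h1, integral_add (integrable_const _)
    ((integrable_const _).indicator hA), integral_indicator hA]
  simp [smul_eq_mul]

/-- Chernoff's bound -/
lemma chernoff (μ : Measure Ω) [IsProbabilityMeasure μ] (E : ℕ → Set Ω)
    (hE : ∀ m, MeasurableSet (E m)) (hind : iIndepSet E μ) (s : Finset ℕ) (t a : ℝ)
    (ht : |t| ≤ 1) :
    μ.real {ω | a ≤ t * (NN E s ω - ∑ m ∈ s, μ.real (E m))} ≤
      Real.exp (-a + (∑ m ∈ s, μ.real (E m)) * t ^ 2) := by
  set M := ∑ m ∈ s, μ.real (E m) with hM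
  have hmeas : ∀ m, Measurable ((E m).indicator (fun _ => (1 : ℝ))) :=
    fun m => measurable_const.indicator (hE m)
  have hiF : iIndepFun (fun m => (E m).indicator (fun _ : Ω => (1 : ℝ))) μ :=
    hind.iIndepFun_indicator
  have hmgf : mgf (∑ m ∈ s, (E m).indicator (fun _ : Ω => (1 : ℝ))) μ t =
      ∏ m ∈ s, (1 + μ.real (E m) * (Real.exp t - 1)) := by
    rw [hiF.mgf_sum hmeas s]
    exact prod_congr rfl (fun m _ => mgf_ind μ (E m) (hE m) t)
  have hmgf2 : mgf (∑ m ∈ s, (E m).indicator (fun _ : Ω => (1 : ℝ))) μ t ≤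
      Real.exp (M * (Real.exp t - 1)) := by
    rw [hmgf, hM, sum_mul, Real.exp_sum]
    apply Finset.prod_le_prod
    · intro m _
      have h1 : μ.real (E m) ≤ 1 := measureReal_le_one
      have h0 : 0 ≤ μ.real (E m) := measureReal_nonneg
      have h2 : 0 < Real.exp t := Real.exp_pos t
      nlinarith
    · intro m _
      linarith [Real.add_one_le_exp (μ.real (E m) * (Real.exp t - 1))]
  have hint : Integrable (fun ω => Real.exp (1 * (t * (NN E s ω - M)))) μ := by
    apply Integrable.of_bound (C := Real.exp (|t| * (s.card + |M|)))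
    · have hm : Measurable (NN E s) := by
        unfold NN
        exact Finset.measurable_fun_sum s (fun m _ => hmeas m)
      exact (((hm.sub_const M).const_mul t).const_mul 1).exp.aestronglyMeasurable
    · refine Eventually.of_forall (fun ω => ?_)
      rw [Real.norm_of_nonneg (Real.exp_pos _).le]
      apply Real.exp_le_exp.mpr
      rw [one_mul]
      refine (le_abs_self _).trans ?_
      rw [abs_mul]
      apply mul_le_mul_of_nonneg_left _ (abs_nonneg _)
      have h1 : |NN E s ω| ≤ s.card := by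
        unfold NN
        refine (abs_sum_le_sum_abs _ _).trans ?_
        have : (s.card : ℝ) = ∑ m ∈ s, (1 : ℝ) := by simp
        rw [this]
        apply sum_le_sum
        intro m _
        by_cases h : ω ∈ E m
        · simp [Set.indicator_of_mem h]
        · simp [Set.indicator_of_notMem h]
      exact (abs_sub _ _).trans (add_le_add h1 le_rfl)
  have h1 := measure_ge_le_exp_mul_mgf (μ := μ) (X := fun ω => t * (NN E s ω - M)) (t := 1) a
    zero_le_one hint
  have h2 : mgf (fun ω => t * (NN E s ω - M)) μ 1 =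
      mgf (∑ m ∈ s, (E m).indicator (fun _ : Ω => (1 : ℝ))) μ t * Real.exp (-(t * M)) := by
    unfold mgf
    rw [← integral_mul_const]
    refine integral_congr_ae (Eventually.of_forall (fun ω => ?_))
    have h3 : (∑ m ∈ s, (E m).indicator (fun _ : Ω => (1 : ℝ))) ω = NN E s ω := by
      simp only [NN, Finset.sum_apply]
    show Real.exp (1 * (t * (NN E s ω - M))) =
      Real.exp (t * (∑ m ∈ s, (E m).indicator (fun _ : Ω => (1 : ℝ))) ω) * Real.exp (-(t * M))
    rw [h3, ← Real.exp_add]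
    apply congrArg
    ring
  rw [h2] at h1
  refine h1.trans ?_
  calc Real.exp (-1 * a) * (mgf (∑ m ∈ s, (E m).indicator (fun _ : Ω => (1 : ℝ))) μ t *
        Real.exp (-(t * M)))
      ≤ Real.exp (-1 * a) * (Real.exp (M * (Real.exp t - 1)) * Real.exp (-(t * M))) := by
        gcongr
    _ = Real.exp (-a + M * (Real.exp t - 1 - t)) := by
        rw [← Real.exp_add, ← Real.exp_add]
        congr 1
        ring
    _ ≤ Real.exp (-a + M * t ^ 2) := by
        apply Real.exp_le_exp.mpr
        have hM0 : 0 ≤ M := sum_nonneg (fun m _ => measureReal_nonneg)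
        have := mul_le_mul_of_nonneg_left (exp_sub_one_le ht) hM0
        linarith

/-- two-sided bound -/
lemma chernoff2 (μ : Measure Ω) [IsProbabilityMeasure μ] (E : ℕ → Set Ω)
    (hE : ∀ m, MeasurableSet (E m)) (hind : iIndepSet E μ) (s : Finset ℕ) (θ : ℝ)
    (h0 : 0 ≤ θ) (h1 : θ ≤ 1) :
    μ.real {ω | θ * (∑ m ∈ s, μ.real (E m)) ≤ |NN E s ω - ∑ m ∈ s, μ.real (E m)|} ≤
      2 * Real.exp (-(θ ^ 2 / 4 * ∑ m ∈ s, μ.real (E m))) := by
  set M := ∑ m ∈ s, μ.real (E m) with hM
  have hM0 : 0 ≤ M := sum_nonneg (fun m _ => measureReal_nonneg)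
  have ht : |θ / 2| ≤ 1 := by
    rw [abs_of_nonneg (by linarith)]
    linarith
  have ht' : |-(θ / 2)| ≤ 1 := by rwa [abs_neg]
  have c1 := chernoff μ E hE hind s (θ / 2) (θ ^ 2 / 2 * M) ht
  have c2 := chernoff μ E hE hind s (-(θ / 2)) (θ ^ 2 / 2 * M) ht'
  rw [← hM] at c1 c2
  have e1 : -(θ ^ 2 / 2 * M) + M * (θ / 2) ^ 2 = -(θ ^ 2 / 4 * M) := by ring
  have e2 : -(θ ^ 2 / 2 * M) + M * (-(θ / 2)) ^ 2 = -(θ ^ 2 / 4 * M) := by ring
  rw [e1] at c1
  rw [e2] at c2
  have hsub : {ω | θ * M ≤ |NN E s ω - M|} ⊆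
      {ω | θ ^ 2 / 2 * M ≤ θ / 2 * (NN E s ω - M)} ∪
        {ω | θ ^ 2 / 2 * M ≤ -(θ / 2) * (NN E s ω - M)} := by
    intro ω hω
    simp only [Set.mem_ofPred_eq, Set.mem_union] at hω ⊢
    rcases le_total 0 (NN E s ω - M) with h | h
    · left
      rw [abs_of_nonneg h] at hω
      nlinarith
    · right
      rw [abs_of_nonpos h] at hω
      nlinarith
  calc μ.real {ω | θ * M ≤ |NN E s ω - M|} ≤ _ := measureReal_mono hsub
    _ ≤ _ := measureReal_union_le _ _
    _ ≤ 2 * Real.exp (-(θ ^ 2 / 4 * M)) := by linarith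

end Pool.Agent.V5helper42.MF
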